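import Mathlib
import Pool.Agent.Q43.SepDim.Count

set_option autoImplicit false

/-!
# Plane-separating embeddings in three-space and separation dimension

`π₃(G)` is not bounded by a function of the separation dimension `π(G)`.
-/

namespace Pool.Agent.Results.MP_38bec9_co.NotBounded

/-- Euclidean three-space. -/
abbrev E3 := EuclideanSpace ℝ (Fin 3)

/-- The edges `ab` and `cd` share no endpoint. -/
def DisjointEdges {V : Type} (a b c d : V) : Prop := a ≠ c ∧ a ≠ d ∧ b ≠ c ∧ b ≠ d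

/-- The family `F 0, ..., F (k-1)` of linear orders of `V` (given as bijections onto
`{0, ..., n-1}`) is pairwise suitable for `G`. -/
def PairwiseSuitable {V : Type} [Fintype V] (G : SimpleGraph V) {k : ℕ}
    (F : Fin k → (V ≃ Fin (Fintype.card V))) : Prop :=
  ∀ a b c d, G.Adj a b → G.Adj c d → DisjointEdges a b c d → ∃ i,
    (F i a < F i c ∧ F i a < F i d ∧ F i b < F i c ∧ F i b < F i d) ∨
    (F i c < F i a ∧ F i d < F i a ∧ F i c < F i b ∧ F i d < F i b)

/-- The separation dimension `π(G)`. -/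
noncomputable def sepDim {V : Type} [Fintype V] (G : SimpleGraph V) : ℕ :=
  sInf {k : ℕ | ∃ F : Fin k → (V ≃ Fin (Fintype.card V)), PairwiseSuitable G F}

/-- `H` is a plane of `ℝ³`. -/
def IsPlane (H : Set E3) : Prop := ∃ (w : E3) (c : ℝ), w ≠ 0 ∧ H = {p | inner ℝ w p = c}

/-- The planes `H` and `H'` are parallel (or equal): they are translates. -/
def Parallel (H H' : Set E3) : Prop := ∃ v : E3, H' = (fun p => p + v) '' H

/-- `A` and `B` lie in different open half-spaces of the plane `H`. -/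
def Separates (H A B : Set E3) : Prop :=
  ∃ (w : E3) (c : ℝ), w ≠ 0 ∧ H = {p | inner ℝ w p = c} ∧ (∀ p ∈ A, inner ℝ w p < c) ∧
    ∀ p ∈ B, c < inner ℝ w p

/-- The placement `φ` of the vertices is `P`-separating for `G`. -/
def PSeparating {V : Type} (G : SimpleGraph V) (P : Finset (Set E3)) (φ : V → E3) : Prop :=
  Function.Injective φ ∧ ∀ u v x y, G.Adj u v → G.Adj x y → DisjointEdges u v x y →
    ∃ H : Set E3, (∃ H' ∈ P, Parallel H' H) ∧
      Separates H (segment ℝ (φ u) (φ v)) (segment ℝ (φ x) (φ y))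

/-- `π₃(G)`: the least size of a finite set `P` of pairwise non-parallel planes such that some
placement is `P`-separating for `G`. -/
noncomputable def pi3 {V : Type} (G : SimpleGraph V) : ℕ :=
  sInf {k : ℕ | ∃ P : Finset (Set E3), P.card = k ∧ (∀ H ∈ P, IsPlane H) ∧
    (∀ H ∈ P, ∀ H' ∈ P, H ≠ H' → ¬ Parallel H H') ∧ ∃ φ : V → E3, PSeparating G P φ}

open Q43.SepDim

/-! ### Upper bound for the separation dimension -/

lemma sepDim_le {N : ℕ} (ρ : Pr → Equiv.Perm (Fin N)) : sepDim (Gr ρ) ≤ 272 := by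
  classical
  apply Nat.sInf_le
  have hc : Fintype.card (Fin 16 ⊕ (Fin 16 × Fin 16)) = 272 := by
    simp
  let eq := Fintype.equivFinOfCardEq hc
  choose e he using fun κ : Fin 16 × Fin N → ℕ => exists_order κ
  let F : Fin 272 → ((Fin 16 × Fin N) ≃ Fin (Fintype.card (Fin 16 × Fin N))) := fun i =>
    Sum.elim (fun i => e (fun u => (kap ρ i u : ℕ))) (fun ij => e (kapB ij.1 ij.2)) (eq.symm i)
  refine ⟨F, ?_⟩
  intro a b c d hab hcd hd
  rcases exists_key ρ hab hcd hd with ⟨i, h | h⟩ | ⟨i, j, h⟩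
  · refine ⟨eq (Sum.inl i), Or.inl ?_⟩
    have hF : F (eq (Sum.inl i)) = e (fun u => (kap ρ i u : ℕ)) := by simp [F]
    rw [hF]
    exact ⟨he _ _ _ (h a (by simp) c (by simp)), he _ _ _ (h a (by simp) d (by simp)),
      he _ _ _ (h b (by simp) c (by simp)), he _ _ _ (h b (by simp) d (by simp))⟩
  · refine ⟨eq (Sum.inl i), Or.inr ?_⟩
    have hF : F (eq (Sum.inl i)) = e (fun u => (kap ρ i u : ℕ)) := by simp [F]
    rw [hF]
    exact ⟨he _ _ _ (h a (by simp) c (by simp)), he _ _ _ (h a (by simp) d (by simp)),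
      he _ _ _ (h b (by simp) c (by simp)), he _ _ _ (h b (by simp) d (by simp))⟩
  · refine ⟨eq (Sum.inr (i, j)), Or.inl ?_⟩
    have hF : F (eq (Sum.inr (i, j))) = e (kapB i j) := by simp [F]
    rw [hF]
    exact ⟨he _ _ _ (h a (by simp) c (by simp)), he _ _ _ (h a (by simp) d (by simp)),
      he _ _ _ (h b (by simp) c (by simp)), he _ _ _ (h b (by simp) d (by simp))⟩

/-! ### Planes -/

lemma Parallel.symm {H H' : Set E3} (h : Parallel H H') : Parallel H' H := by
  obtain ⟨v, rfl⟩ := h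
  refine ⟨-v, ?_⟩
  rw [Set.image_image]
  simp

lemma Parallel.refl (H : Set E3) : Parallel H H := ⟨0, by simp⟩

lemma translate_plane {w v : E3} {c : ℝ} :
    (fun p => p + v) '' {p : E3 | inner ℝ w p = c} = {p | inner ℝ w p = c + inner ℝ w v} := by
  ext p
  simp only [Set.mem_image, Set.mem_ofPred_eq]
  constructor
  · rintro ⟨q, hq, rfl⟩
    rw [inner_add_right, hq]
  · intro hp
    refine ⟨p - v, ?_, by simp⟩
    rw [inner_sub_right, hp]
    ring

lemma normal_unique {w w' : E3} {c c' : ℝ} (hw : w ≠ 0) (hw' : w' ≠ 0)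
    (h : {p : E3 | inner ℝ w p = c} = {p | inner ℝ w' p = c'}) :
    ∃ r : ℝ, r ≠ 0 ∧ w' = r • w := by
  have hww : inner ℝ w w ≠ 0 := inner_self_ne_zero.mpr hw
  set p₀ : E3 := (c / inner ℝ w w) • w with hp₀
  have h0 : p₀ ∈ {p : E3 | inner ℝ w p = c} := by
    rw [Set.mem_ofPred_eq, hp₀, inner_smul_right]
    field_simp
  have h0' : inner ℝ w' p₀ = c' := by
    rw [h] at h0
    exact h0
  set r : ℝ := inner ℝ w w' / inner ℝ w w with hr
  set v : E3 := w' - r • w with hv
  have hv1 : inner ℝ w v = 0 := by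
    rw [hv, inner_sub_right, inner_smul_right, hr]
    field_simp
    ring
  have h1 : p₀ + v ∈ {p : E3 | inner ℝ w p = c} := by
    rw [Set.mem_ofPred_eq, inner_add_right, hv1, add_zero]
    exact h0
  rw [h, Set.mem_ofPred_eq, inner_add_right, h0'] at h1
  have hv2 : inner ℝ w' v = 0 := by linarith
  have hv3 : inner ℝ v v = 0 := by
    nth_rewrite 1 [hv]
    rw [inner_sub_left, inner_smul_left, hv1, hv2]
    simp
  have hv4 : v = 0 := inner_self_eq_zero.mp hv3
  have hw'' : w' = r • w := sub_eq_zero.mp hv4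
  refine ⟨r, ?_, hw''⟩
  intro hr0
  rw [hr0, zero_smul] at hw''
  exact hw' hw''

/-! ### Moment curve: `π₃` is well defined -/

/-- the moment curve -/
noncomputable def mom (s : ℝ) : E3 := !₂[s, s ^ 2, s ^ 3]

lemma inner_mom (q1 q2 q3 s : ℝ) :
    inner ℝ (!₂[q1, q2, q3] : E3) (mom s) = q1 * s + q2 * s ^ 2 + q3 * s ^ 3 := by
  simp [mom, PiLp.inner_apply, Fin.sum_univ_three]
  ring

lemma exists_cubic {a b c d : ℝ} (hab : a ≠ b) (hcd : c ≠ d) (h1 : a ≠ c) (h2 : a ≠ d)
    (h3 : b ≠ c) (h4 : b ≠ d) : ∃ q0 q1 q2 q3 : ℝ,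
      q0 + q1 * a + q2 * a ^ 2 + q3 * a ^ 3 = -1 ∧ q0 + q1 * b + q2 * b ^ 2 + q3 * b ^ 3 = -1 ∧
      q0 + q1 * c + q2 * c ^ 2 + q3 * c ^ 3 = 1 ∧ q0 + q1 * d + q2 * d ^ 2 + q3 * d ^ 3 = 1 := by
  let v : Fin 4 → ℝ := ![a, b, c, d]
  let r : Fin 4 → ℝ := ![-1, -1, 1, 1]
  have hv : Set.InjOn v (Finset.univ : Finset (Fin 4)) := by
    intro i _ j _ hij
    fin_cases i <;> fin_cases j <;> simp_all [v]
  let p := Lagrange.interpolate Finset.univ v r
  have hdeg : p.degree < (4 : ℕ) := by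
    have := Lagrange.degree_interpolate_lt r hv
    rw [Finset.card_univ, Fintype.card_fin] at this
    exact this
  have hnat : p.natDegree < 4 := by
    by_cases hp : p = 0
    · rw [hp]
      simp
    · exact (Polynomial.natDegree_lt_iff_degree_lt hp).mpr hdeg
  have heval : ∀ x : ℝ, p.eval x = p.coeff 0 + p.coeff 1 * x + p.coeff 2 * x ^ 2 +
      p.coeff 3 * x ^ 3 := by
    intro x
    rw [Polynomial.eval_eq_sum_range' hnat]
    simp [Finset.sum_range_succ]
  have hnode : ∀ i : Fin 4, p.eval (v i) = r i := fun i =>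
    Lagrange.eval_interpolate_at_node r hv (Finset.mem_univ i)
  refine ⟨p.coeff 0, p.coeff 1, p.coeff 2, p.coeff 3, ?_, ?_, ?_, ?_⟩
  · rw [← heval]; exact hnode 0
  · rw [← heval]; exact hnode 1
  · rw [← heval]; exact hnode 2
  · rw [← heval]; exact hnode 3

lemma exists_sep {a b c d : ℝ} (hab : a ≠ b) (hcd : c ≠ d) (h1 : a ≠ c) (h2 : a ≠ d)
    (h3 : b ≠ c) (h4 : b ≠ d) : ∃ H : Set E3, IsPlane H ∧
      Separates H (segment ℝ (mom a) (mom b)) (segment ℝ (mom c) (mom d)) := by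
  obtain ⟨q0, q1, q2, q3, ea, eb, ec, ed⟩ := exists_cubic hab hcd h1 h2 h3 h4
  set w : E3 := !₂[q1, q2, q3] with hw
  have hw0 : w ≠ 0 := by
    intro h0
    have e1 : inner ℝ w (mom a) = 0 := by rw [h0]; simp
    have e2 : inner ℝ w (mom c) = 0 := by rw [h0]; simp
    rw [hw, inner_mom] at e1 e2
    linarith
  have hlin : IsLinearMap ℝ (fun p : E3 => inner ℝ w p) :=
    ⟨fun x y => inner_add_right _ _ _, fun r x => by rw [inner_smul_right]; rfl⟩
  refine ⟨{p | inner ℝ w p = -q0}, ⟨w, -q0, hw0, rfl⟩, w, -q0, hw0, rfl, ?_, ?_⟩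
  · have hconv : Convex ℝ {p : E3 | inner ℝ w p < -q0} := convex_halfSpace_lt hlin _
    intro p hp
    refine hconv.segment_subset ?_ ?_ hp
    · rw [Set.mem_ofPred_eq, hw, inner_mom]
      linarith
    · rw [Set.mem_ofPred_eq, hw, inner_mom]
      linarith
  · have hconv : Convex ℝ {p : E3 | -q0 < inner ℝ w p} := convex_halfSpace_gt hlin _
    intro p hp
    refine hconv.segment_subset ?_ ?_ hp
    · rw [Set.mem_ofPred_eq, hw, inner_mom]
      linarith
    · rw [Set.mem_ofPred_eq, hw, inner_mom]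
      linarith

lemma exists_reps (Q : Finset (Set E3)) : ∃ P : Finset (Set E3), P ⊆ Q ∧
    (∀ H ∈ P, ∀ H' ∈ P, H ≠ H' → ¬ Parallel H H') ∧ ∀ H ∈ Q, ∃ H' ∈ P, Parallel H' H := by
  classical
  induction Q using Finset.induction_on with
  | empty => exact ⟨∅, by simp, by simp, by simp⟩
  | insert a Q ha ih =>
    obtain ⟨P, hP1, hP2, hP3⟩ := ih
    by_cases h : ∃ H' ∈ P, Parallel H' a
    · refine ⟨P, hP1.trans (Finset.subset_insert _ _), hP2, ?_⟩
      intro H hH
      rcases Finset.mem_insert.mp hH with rfl | hH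
      · exact h
      · exact hP3 H hH
    · push Not at h
      refine ⟨insert a P, Finset.insert_subset_insert _ hP1, ?_, ?_⟩
      · intro H hH H' hH' hne
        rcases Finset.mem_insert.mp hH with e1 | m1
        · rcases Finset.mem_insert.mp hH' with e2 | m2
          · exact absurd (e1.trans e2.symm) hne
          · rw [e1]
            exact fun hp => h H' m2 hp.symm
        · rcases Finset.mem_insert.mp hH' with e2 | m2
          · rw [e2]
            exact h H m1
          · exact hP2 H m1 H' m2 hne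
      · intro H hH
        rcases Finset.mem_insert.mp hH with rfl | hH
        · exact ⟨H, Finset.mem_insert_self _ _, Parallel.refl H⟩
        · obtain ⟨H', h1, h2⟩ := hP3 H hH
          exact ⟨H', Finset.mem_insert_of_mem h1, h2⟩

/-- `π₃` is the minimum of a nonempty set, for every finite graph. -/
lemma pi3_nonempty {V : Type} [Fintype V] (G : SimpleGraph V) :
    {k : ℕ | ∃ P : Finset (Set E3), P.card = k ∧ (∀ H ∈ P, IsPlane H) ∧
    (∀ H ∈ P, ∀ H' ∈ P, H ≠ H' → ¬ Parallel H H') ∧ ∃ φ : V → E3, PSeparating G P φ}.Nonempty := by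
  classical
  let s : V → ℝ := fun u => ((Fintype.equivFin V u : ℕ) : ℝ)
  have hs : Function.Injective s := by
    intro u v h
    have h0 : ((Fintype.equivFin V u : ℕ) : ℝ) = ((Fintype.equivFin V v : ℕ) : ℝ) := h
    have h1 : (Fintype.equivFin V u : ℕ) = Fintype.equivFin V v := by exact_mod_cast h0
    exact (Fintype.equivFin V).injective (Fin.ext h1)
  have hex : ∀ q : V × V × V × V, ∃ H : Set E3, IsPlane H ∧
      (q.1 ≠ q.2.1 → q.2.2.1 ≠ q.2.2.2 → DisjointEdges q.1 q.2.1 q.2.2.1 q.2.2.2 →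
        Separates H (segment ℝ (mom (s q.1)) (mom (s q.2.1)))
          (segment ℝ (mom (s q.2.2.1)) (mom (s q.2.2.2)))) := by
    rintro ⟨u, v, x, y⟩
    by_cases h : u ≠ v ∧ x ≠ y ∧ DisjointEdges u v x y
    · obtain ⟨h1, h2, h3, h4, h5, h6⟩ := h
      obtain ⟨H, hH1, hH2⟩ := exists_sep (hs.ne h1) (hs.ne h2) (hs.ne h3) (hs.ne h4) (hs.ne h5)
        (hs.ne h6)
      exact ⟨H, hH1, fun _ _ _ => hH2⟩
    · refine ⟨{p | inner ℝ (!₂[1, 0, 0] : E3) p = 0}, ⟨_, _, ?_, rfl⟩, ?_⟩
      · intro h0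
        have := congrFun (congrArg (fun z : E3 => (z : Fin 3 → ℝ)) h0) 0
        simp at this
      · intro h1 h2 h3
        exact absurd ⟨h1, h2, h3⟩ h
  choose pl hpl1 hpl2 using hex
  obtain ⟨P, hP1, hP2, hP3⟩ := exists_reps (Finset.univ.image pl)
  refine ⟨P.card, P, rfl, ?_, hP2, fun u => mom (s u), ?_, ?_⟩
  · intro H hH
    obtain ⟨q, -, rfl⟩ := Finset.mem_image.mp (hP1 hH)
    exact hpl1 q
  · intro u v h
    apply hs
    have := congrFun (congrArg (fun z : E3 => (z : Fin 3 → ℝ)) h) 0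
    simpa [mom] using this
  · intro u v x y huv hxy hd
    refine ⟨pl (u, v, x, y), hP3 _ (Finset.mem_image_of_mem _ (Finset.mem_univ _)), ?_⟩
    exact hpl2 (u, v, x, y) huv.ne hxy.ne hd

/-! ### From `π₃(G) ≤ t` to directions and points -/

lemma sepReal_of {N t : ℕ} (ρ : Pr → Equiv.Perm (Fin N)) (h : pi3 (Gr ρ) ≤ t) :
    ∃ (w : Fin t → Fin 3 → ℝ) (x : Fin 16 × Fin N → Fin 3 → ℝ), SepReal ρ w x := by
  classical
  obtain ⟨P, hPc, hP1, -, φ, -, hφ⟩ := Nat.sInf_mem (pi3_nonempty (Gr ρ))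
  have hPt : P.card ≤ t := by
    rw [hPc]
    exact h
  choose! n c hn hH using hP1
  let w : Fin t → Fin 3 → ℝ := fun s =>
    if hs : (s : ℕ) < P.card then (n (P.equivFin.symm ⟨s, hs⟩ : Set E3)) else 0
  refine ⟨w, fun u => φ u, ?_⟩
  intro a b c' d hab hcd hd
  obtain ⟨H, ⟨H', hH'P, v, hHv⟩, w', c'', hw', hHw', hA, hB⟩ := hφ a b c' d hab hcd hd
  let s : Fin t := ⟨P.equivFin ⟨H', hH'P⟩, lt_of_lt_of_le (Fin.is_lt _) hPt⟩
  have hws : w s = (n H' : Fin 3 → ℝ) := by
    have h1 : (s : ℕ) < P.card := Fin.is_lt (P.equivFin ⟨H', hH'P⟩)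
    simp only [w]
    rw [dif_pos h1]
    have h2 : (⟨(s : ℕ), h1⟩ : Fin P.card) = P.equivFin ⟨H', hH'P⟩ := Fin.ext rfl
    rw [h2, Equiv.symm_apply_apply]
  have hval : ∀ u, val w (fun u => φ u) s u = inner ℝ (n H') (φ u) := by
    intro u
    unfold val
    rw [hws, PiLp.inner_apply]
    apply Finset.sum_congr rfl
    intro i _
    simp [mul_comm]
  have hset : {p : E3 | inner ℝ (n H') p = c H' + inner ℝ (n H') v} = {p | inner ℝ w' p = c''} := by
    rw [← hHw', hHv, ← translate_plane]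
    congr 1
    exact (hH H' hH'P).symm
  obtain ⟨r, hr0, hr⟩ := normal_unique (hn H' hH'P) hw' hset
  have hv : ∀ u, inner ℝ w' (φ u) = r * val w (fun u => φ u) s u := by
    intro u
    rw [hval, hr, inner_smul_left]
    simp
  have ha := hA _ (left_mem_segment ℝ (φ a) (φ b))
  have hb := hA _ (right_mem_segment ℝ (φ a) (φ b))
  have hc := hB _ (left_mem_segment ℝ (φ c') (φ d))
  have hd' := hB _ (right_mem_segment ℝ (φ c') (φ d))
  rw [hv] at ha hb hc hd'
  refine ⟨s, ?_⟩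
  rcases lt_or_gt_of_ne hr0 with hneg | hpos
  · right
    refine ⟨?_, ?_, ?_, ?_⟩ <;> nlinarith
  · left
    refine ⟨?_, ?_, ?_, ?_⟩ <;> nlinarith

/-- **Answer to Q1: no.**  There is no function `f` with `π₃(G) ≤ f(π(G))` for all finite graphs;
in fact `π₃` is unbounded on the graphs of separation dimension at most `272`. -/
theorem result :
    (¬ ∃ f : ℕ → ℕ, ∀ (V : Type) [Fintype V] (G : SimpleGraph V), pi3 G ≤ f (sepDim G)) ∧
    ∀ t : ℕ, ∃ (V : Type) (_ : Fintype V) (G : SimpleGraph V), sepDim G ≤ 272 ∧ t < pi3 G := by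
  have main : ∀ t : ℕ, ∃ (V : Type) (_ : Fintype V) (G : SimpleGraph V),
      sepDim G ≤ 272 ∧ t < pi3 G := by
    intro t
    obtain ⟨N, M, hNM, hlt⟩ := numeric (t + 1) (by omega)
    by_contra hcon
    push Not at hcon
    have h : ∀ ρ : Pr → Equiv.Perm (Fin N), ∃ (w : Fin (t+1) → Fin 3 → ℝ)
      (x : Fin 16 × Fin N → Fin 3 → ℝ), SepReal ρ w x := by
      intro ρ
      apply sepReal_of
      have := hcon (Fin 16 × Fin N) inferInstance (Gr ρ) (sepDim_le ρ)
      omega
    have := count hNM h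
    omega
  refine ⟨?_, main⟩
  rintro ⟨f, hf⟩
  obtain ⟨V, hV, G, h1, h2⟩ := main ((Finset.range 273).sup f)
  have h3 := hf V G
  have h4 : f (sepDim G) ≤ (Finset.range 273).sup f :=
    Finset.le_sup (f := f) (Finset.mem_range.mpr (by omega))
  omega

end Pool.Agent.Results.MP_38bec9_co.NotBounded
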